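import Pool.Agent.R688.DP.Defs

set_option autoImplicit false

namespace R688.DP

/-- the classical sequence: `π_n = p` if `n` is a power of the prime `p`, and `π_n = 1` if `n` is
not a prime power -/
noncomputable def piNat (n : ℕ) : ℕ := by
  classical exact if IsPrimePow n then n.minFac else 1

lemma piNat_pos (n : ℕ) : 0 < piNat n := by
  unfold piNat
  split_ifs with h
  · exact Nat.minFac_pos n
  · exact one_pos

lemma log_piNat (n : ℕ) : Real.log (piNat n) = ArithmeticFunction.vonMangoldt n := by
  unfold piNat
  rw [ArithmeticFunction.vonMangoldt_apply]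
  split_ifs with h
  · rfl
  · simp

lemma piNat_one : piNat 1 = 1 := by
  unfold piNat
  rw [if_neg]
  exact not_isPrimePow_one

lemma prod_divisors (n : ℕ) (hn : 0 < n) : ∏ d ∈ n.divisors, piNat d = n := by
  have h1 : Real.log ((∏ d ∈ n.divisors, piNat d : ℕ) : ℝ) = Real.log n := by
    rw [Nat.cast_prod, Real.log_prod (fun d _ => by
      have := piNat_pos d
      positivity)]
    simp only [log_piNat]
    exact ArithmeticFunction.vonMangoldt_sum
  have h2 : (0 : ℝ) < ((∏ d ∈ n.divisors, piNat d : ℕ) : ℝ) := by
    exact_mod_cast Finset.prod_pos fun d _ => piNat_pos d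
  have h3 := Real.log_injOn_pos h2 (show (0 : ℝ) < (n : ℝ) by exact_mod_cast hn) h1
  exact_mod_cast h3

/-- `n! = ∏ π_d ^ ⌊n/d⌋` -/
lemma factorial_eq (n : ℕ) : ∀ B, n ≤ B → n.factorial = ∏ d ∈ Finset.Icc 2 B, piNat d ^ (n / d) := by
  induction n with
  | zero => intro B _; simp
  | succ n ih =>
    intro B hB
    rw [Nat.factorial_succ, ih B (by omega)]
    have h1 : n + 1 = ∏ d ∈ Finset.Icc 2 B, (if d ∣ n + 1 then piNat d else 1) := by
      rw [← Finset.prod_filter]
      conv_lhs => rw [← prod_divisors (n + 1) (Nat.succ_pos n)]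
      rw [← Finset.prod_erase (n + 1).divisors piNat_one]
      apply Finset.prod_congr _ (fun _ _ => rfl)
      ext d
      simp only [Finset.mem_erase, Nat.mem_divisors, Finset.mem_filter, Finset.mem_Icc]
      constructor
      · rintro ⟨h1, h2, h3⟩
        have h4 := Nat.le_of_dvd (Nat.succ_pos n) h2
        have h5 : d ≠ 0 := fun h => by subst h; simp at h2
        exact ⟨⟨by omega, by omega⟩, h2⟩
      · rintro ⟨⟨h1, h2⟩, h3⟩
        exact ⟨by omega, h3, by omega⟩
    conv_lhs => rw [h1]
    rw [← Finset.prod_mul_distrib]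
    apply Finset.prod_congr rfl
    intro d hd
    rw [Nat.succ_div]
    split_ifs with h
    · rw [pow_succ, mul_comm]
    · rw [one_mul, add_zero]

/-- the classical structure constants are the binomial coefficients -/
lemma Cc_classical (k : Type*) [CommRing k] (n m : ℕ) (hm : m ≤ n) :
    Cc k (fun d => (piNat d : k)) n m = (n.choose m : k) := by
  have h1 : (∏ d ∈ Finset.Icc 2 n, piNat d ^ (n / d - m / d - (n - m) / d)) = n.choose m := by
    have h2 : (∏ d ∈ Finset.Icc 2 n, piNat d ^ (n / d - m / d - (n - m) / d)) *
        (m.factorial * (n - m).factorial) = n.factorial := by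
      rw [factorial_eq m n hm, factorial_eq (n - m) n (by omega), factorial_eq n n le_rfl,
        ← Finset.prod_mul_distrib, ← Finset.prod_mul_distrib]
      apply Finset.prod_congr rfl
      intro d _
      rw [← pow_add, ← pow_add]
      congr 1
      have h3 : m / d + (n - m) / d ≤ (m + (n - m)) / d := Nat.div_add_div_le_add_div
      rw [show m + (n - m) = n by omega] at h3
      omega
    have h3 := Nat.choose_mul_factorial_mul_factorial hm
    have h4 : 0 < m.factorial * (n - m).factorial :=
      Nat.mul_pos (Nat.factorial_pos _) (Nat.factorial_pos _)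
    rw [mul_assoc] at h3
    exact Nat.eq_of_mul_eq_mul_right h4 (h2.trans h3.symm)
  unfold Cc
  rw [← h1]
  push_cast
  rfl

end R688.DP
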