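import Mathlib

set_option autoImplicit false

/-!
# Arithmetic in `ℤ_(2)`
-/

namespace R688.DP

instance primeTwo : (Ideal.span {(2 : ℤ)}).IsPrime := by
  rw [Ideal.span_singleton_prime (by norm_num)]
  exact Int.prime_two

/-- the local ring `ℤ_(2)` -/
abbrev Z2 : Type := Localization.AtPrime (Ideal.span {(2 : ℤ)})

lemma cast_inj {a b : ℤ} (h : (a : Z2) = (b : Z2)) : a = b := by
  have hinj : Function.Injective (algebraMap ℤ Z2) :=
    IsLocalization.injective Z2 (Ideal.primeCompl_le_nonZeroDivisors (Ideal.span {(2 : ℤ)}))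
  apply hinj
  simpa using h

instance : CharZero Z2 := ⟨fun a b h => by
  have : ((a : ℤ) : Z2) = ((b : ℤ) : Z2) := by push_cast; exact h
  exact_mod_cast cast_inj this⟩

instance : IsDomain Z2 :=
  IsLocalization.isDomain_localization (Ideal.primeCompl_le_nonZeroDivisors (Ideal.span {(2 : ℤ)}))

lemma exists_denom (x : Z2) : ∃ u A : ℤ, Odd u ∧ (u : Z2) * x = A := by
  obtain ⟨⟨A, u⟩, h⟩ := IsLocalization.surj (Ideal.span {(2 : ℤ)}).primeCompl x
  refine ⟨u, A, ?_, ?_⟩
  · have hu : ¬ (2 : ℤ) ∣ u := fun h => u.2 (Ideal.mem_span_singleton.2 h)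
    rw [← Int.not_even_iff_odd, even_iff_two_dvd]
    exact hu
  · rw [mul_comm]
    simpa using h

lemma unit_of_odd {u : ℤ} (hu : Odd u) : IsUnit (u : Z2) := by
  have h : u ∈ (Ideal.span {(2 : ℤ)}).primeCompl := by
    intro h
    rw [SetLike.mem_coe, Ideal.mem_span_singleton] at h
    rw [← Int.not_even_iff_odd, even_iff_two_dvd] at hu
    exact hu h
  have := IsLocalization.map_units Z2 (⟨u, h⟩ : (Ideal.span {(2 : ℤ)}).primeCompl)
  simpa using this

/-- integral divisibility -/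
lemma dvd_int {s : ℕ} {n : ℤ} (h : (2 : Z2) ^ s ∣ (n : Z2)) : (2 : ℤ) ^ s ∣ n := by
  obtain ⟨x, hx⟩ := h
  obtain ⟨u, A, hu, hA⟩ := exists_denom x
  have h1 : ((u * n : ℤ) : Z2) = ((2 ^ s * A : ℤ) : Z2) := by
    push_cast
    rw [hx, ← hA]
    ring
  have h2 := cast_inj h1
  have h3 : (2 : ℤ) ^ s ∣ u * n := ⟨A, h2⟩
  have h4 : IsCoprime ((2 : ℤ) ^ s) u := by
    apply IsCoprime.pow_left
    rw [Int.prime_two.irreducible.coprime_iff_not_dvd, ← even_iff_two_dvd, Int.not_even_iff_odd]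
    exact hu
  exact h4.dvd_of_dvd_mul_left h3

/-- separatedness -/
lemma eq_zero_of_dvd {x : Z2} {c : ℕ} (hc : c ≠ 0) (N : ℕ)
    (h : ∀ s, N ≤ s → (2 : Z2) ^ s ∣ (c : Z2) * x) : x = 0 := by
  obtain ⟨u, A, hu, hA⟩ := exists_denom x
  have h1 : ∀ s, N ≤ s → (2 : ℤ) ^ s ∣ c * A := by
    intro s hs
    apply dvd_int
    push_cast
    rw [← hA]
    obtain ⟨y, hy⟩ := h s hs
    exact ⟨u * y, by rw [mul_left_comm, hy]; ring⟩
  have h2 : (c : ℤ) * A = 0 := by
    by_contra hne
    have h3 := h1 (N + (c * A).natAbs) (by omega)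
    have h4 := Int.le_of_dvd (abs_pos.2 hne) ((dvd_abs _ _).2 h3)
    have h5 : ((c * A).natAbs : ℤ) = |(c : ℤ) * A| := Int.natCast_natAbs _
    have h6 : N + ((c : ℤ) * A).natAbs < 2 ^ (N + ((c : ℤ) * A).natAbs) := Nat.lt_two_pow_self
    have h7 : ((N + ((c : ℤ) * A).natAbs : ℕ) : ℤ) < 2 ^ (N + ((c : ℤ) * A).natAbs) := by
      exact_mod_cast h6
    push_cast at h7
    try rw [h5] at h7
    have h8 : (0 : ℤ) ≤ N := by positivity
    have h9 : |(c : ℤ) * A| < 2 ^ (N + ((c : ℤ) * A).natAbs) := by linarith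
    linarith
  have h3 : A = 0 := by
    rcases mul_eq_zero.1 h2 with h3 | h3
    · exact absurd (by exact_mod_cast h3) hc
    · exact h3
  rw [h3, Int.cast_zero] at hA
  have h4 := (unit_of_odd hu).ne_zero
  exact (mul_eq_zero.1 hA).resolve_left h4

/-- if `2^s ∣ c x` with `0 < c < 2^s` then `2 ∣ x` -/
lemma two_dvd {x : Z2} {c s : ℕ} (hc : c ≠ 0) (hcs : c < 2 ^ s)
    (h : (2 : Z2) ^ s ∣ (c : Z2) * x) : (2 : Z2) ∣ x := by
  obtain ⟨u, A, hu, hA⟩ := exists_denom x
  have h1 : (2 : ℤ) ^ s ∣ c * A := by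
    apply dvd_int
    push_cast
    rw [← hA]
    obtain ⟨y, hy⟩ := h
    exact ⟨u * y, by rw [mul_left_comm, hy]; ring⟩
  have h2 : Even A := by
    by_contra hne
    rw [Int.not_even_iff_odd] at hne
    have h4 : IsCoprime ((2 : ℤ) ^ s) A := by
      apply IsCoprime.pow_left
      rw [Int.prime_two.irreducible.coprime_iff_not_dvd, ← even_iff_two_dvd, Int.not_even_iff_odd]
      exact hne
    have h5 := h4.dvd_of_dvd_mul_right h1
    have h6 := Int.le_of_dvd (by exact_mod_cast Nat.pos_of_ne_zero hc) h5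
    have h7 : 2 ^ s ≤ c := by exact_mod_cast h6
    omega
  obtain ⟨B, hB⟩ := h2
  obtain ⟨w, hw⟩ := unit_of_odd hu
  refine ⟨(↑w⁻¹ : Z2) * B, ?_⟩
  have h3 : x = (↑w⁻¹ : Z2) * A := by
    rw [← hA, ← hw, ← mul_assoc, Units.inv_mul, one_mul]
  rw [h3, hB]
  push_cast
  ring

/-- partial sums of the irrational `2`-adic integer `∑ 2^(2^i)` -/
def ss (v : ℕ) : ℤ := ∑ i ∈ (Finset.range v).filter (fun i => 2 ^ i < v), 2 ^ (2 ^ i)

lemma ss_dvd {v w : ℕ} (h : v ≤ w) : (2 : ℤ) ^ v ∣ ss w - ss v := by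
  unfold ss
  have h1 : (Finset.range v).filter (fun i => 2 ^ i < v) ⊆
      (Finset.range w).filter (fun i => 2 ^ i < w) := by
    intro i hi
    simp only [Finset.mem_filter, Finset.mem_range] at hi ⊢
    omega
  rw [← Finset.sum_sdiff_eq_sub h1]
  apply Finset.dvd_sum
  intro i hi
  simp only [Finset.mem_sdiff, Finset.mem_filter, Finset.mem_range, not_and, not_lt] at hi
  apply pow_dvd_pow
  by_contra hlt
  push Not at hlt
  have h2 : i < 2 ^ i := Nat.lt_two_pow_self
  have := hi.2 (by omega)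
  omega

lemma ss_pow_succ (n : ℕ) : ss (2 ^ (n + 1)) = ss (2 ^ n) + 2 ^ (2 ^ n) := by
  have h : ∀ m, ss (2 ^ m) = ∑ i ∈ Finset.range m, 2 ^ (2 ^ i) := by
    intro m
    unfold ss
    apply Finset.sum_congr _ (fun _ _ => rfl)
    ext i
    simp only [Finset.mem_filter, Finset.mem_range]
    constructor
    · rintro ⟨_, h⟩
      exact (Nat.pow_lt_pow_iff_right (by norm_num)).1 h
    · intro h
      have h2 : m < 2 ^ m := Nat.lt_two_pow_self
      exact ⟨by omega, (Nat.pow_lt_pow_iff_right (by norm_num)).2 h⟩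
  rw [h, h, Finset.sum_range_succ]

lemma ss_nonneg (v : ℕ) : 0 ≤ ss v := by
  unfold ss
  positivity

lemma ss_bound (n : ℕ) : ss (2 ^ (n + 1)) ≤ 2 * 2 ^ (2 ^ n) := by
  induction n with
  | zero =>
    rw [ss_pow_succ]
    norm_num [ss]
  | succ n ih =>
    rw [ss_pow_succ]
    have h1 : (2 : ℤ) * 2 ^ (2 ^ n) ≤ 2 ^ (2 ^ (n + 1)) := by
      rw [← pow_succ']
      apply pow_le_pow_right₀ (by norm_num)
      rw [pow_succ]
      have : 0 < 2 ^ n := by positivity
      omega
    linarith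

/-- irrationality -/
lemma irr_int {A B : ℤ} (N : ℕ) (h : ∀ v, N ≤ v → (2 : ℤ) ^ v ∣ A + ss v * B) :
    A = 0 ∧ B = 0 := by
  have key : ∀ n, N + A.natAbs + 2 * B.natAbs ≤ n → A + ss (2 ^ (n + 1)) * B = 0 := by
    intro n hn
    by_contra hne
    have h0 : n + 1 < 2 ^ (n + 1) := Nat.lt_two_pow_self
    have h1 := h (2 ^ (n + 1)) (by omega)
    have h2 := Int.le_of_dvd (abs_pos.2 hne) ((dvd_abs _ _).2 h1)
    have h3 : |A + ss (2 ^ (n + 1)) * B| ≤ |A| + 2 * 2 ^ (2 ^ n) * |B| := by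
      refine (abs_add_le _ _).trans ?_
      rw [abs_mul, abs_of_nonneg (ss_nonneg _)]
      have := mul_le_mul_of_nonneg_right (ss_bound n) (abs_nonneg B)
      linarith
    have h4 : (2 : ℤ) ^ (2 ^ (n + 1)) = 2 ^ (2 ^ n) * 2 ^ (2 ^ n) := by
      rw [← pow_add]
      congr 1
      rw [pow_succ]
      ring
    have h5 : (A.natAbs + 2 * B.natAbs : ℤ) < 2 ^ (2 ^ n) := by
      have e1 : n < 2 ^ n := Nat.lt_two_pow_self
      have e2 : 2 ^ n < 2 ^ (2 ^ n) := Nat.lt_two_pow_self
      have e3 : A.natAbs + 2 * B.natAbs < 2 ^ (2 ^ n) := by omega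
      exact_mod_cast e3
    rw [Int.natCast_natAbs, Int.natCast_natAbs] at h5
    have h6 : (1 : ℤ) ≤ 2 ^ (2 ^ n) := one_le_pow₀ (by norm_num)
    have h7 : |A| ≤ |A| * 2 ^ (2 ^ n) := le_mul_of_one_le_right (abs_nonneg A) h6
    have h8 : (|A| + 2 * |B|) * 2 ^ (2 ^ n) < 2 ^ (2 ^ n) * 2 ^ (2 ^ n) :=
      mul_lt_mul_of_pos_right h5 (by positivity)
    rw [← h4] at h8
    have h9 : (|A| + 2 * |B|) * 2 ^ (2 ^ n) = |A| * 2 ^ (2 ^ n) + 2 * 2 ^ (2 ^ n) * |B| := by ring
    rw [h9] at h8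
    linarith
  set n := N + A.natAbs + 2 * B.natAbs with hn
  have h1 := key n le_rfl
  have h2 := key (n + 1) (by omega)
  rw [ss_pow_succ (n + 1)] at h2
  have h3 : (2 : ℤ) ^ (2 ^ (n + 1)) * B = 0 := by linear_combination h2 - h1
  have h4 : B = 0 := by
    rcases mul_eq_zero.1 h3 with h | h
    · exact absurd h (by positivity)
    · exact h
  rw [h4, mul_zero, add_zero] at h1
  exact ⟨h1, h4⟩

lemma irr {a b : Z2} (N : ℕ) (h : ∀ v, N ≤ v → (2 : Z2) ^ v ∣ a + (ss v : Z2) * b) :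
    a = 0 ∧ b = 0 := by
  obtain ⟨u, A, hu, hA⟩ := exists_denom a
  obtain ⟨u', B, hu', hB⟩ := exists_denom b
  have h1 : ∀ v, N ≤ v → (2 : ℤ) ^ v ∣ u' * A + ss v * (u * B) := by
    intro v hv
    apply dvd_int
    obtain ⟨y, hy⟩ := h v hv
    refine ⟨u * u' * y, ?_⟩
    push_cast
    rw [← hA, ← hB]
    linear_combination (u * u' : Z2) * hy
  obtain ⟨h2, h3⟩ := irr_int N h1
  have hu0 := (unit_of_odd hu).ne_zero
  have hu0' := (unit_of_odd hu').ne_zero
  have e1 : u ≠ 0 := by rintro rfl; simp at hu0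
  have e2 : u' ≠ 0 := by rintro rfl; simp at hu0'
  have h4 : A = 0 := (mul_eq_zero.1 h2).resolve_left e2
  have h5 : B = 0 := (mul_eq_zero.1 h3).resolve_left e1
  rw [h4, Int.cast_zero] at hA
  rw [h5, Int.cast_zero] at hB
  exact ⟨(mul_eq_zero.1 hA).resolve_left hu0, (mul_eq_zero.1 hB).resolve_left hu0'⟩

/-- a natural number is a unit times its `2`-part -/
lemma nat_assoc {n : ℕ} (hn : n ≠ 0) :
    ∃ w : Z2ˣ, (n : Z2) = 2 ^ (padicValNat 2 n) * w := by
  obtain ⟨k, m, hm, rfl⟩ := Nat.exists_eq_two_pow_mul_odd hn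
  have hm0 : m ≠ 0 := by rintro rfl; simp at hm
  have h1 : padicValNat 2 (2 ^ k * m) = k := by
    rw [padicValNat.mul (by positivity) hm0, padicValNat.prime_pow,
      padicValNat.eq_zero_of_not_dvd (by
        rw [← even_iff_two_dvd, Nat.not_even_iff_odd]
        exact hm), add_zero]
  have h2 : IsUnit ((m : ℤ) : Z2) := unit_of_odd (by exact_mod_cast hm)
  obtain ⟨w, hw⟩ := h2
  refine ⟨w, ?_⟩
  rw [h1, hw]
  push_cast
  rfl

/-! ### The two key lemmas on coordinate functions -/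

/-- Lemma A: generators in degrees `≤ 0` contribute nothing. -/
theorem lemA (E n₀ : ℕ) (hn₀ : 1 ≤ n₀) (w : ℕ → Fin 2 → Z2)
    (hw : ∀ J, n₀ ≤ J → ∀ l, ((J + l).choose l : Z2) • w J = ((J + E + l).choose l : Z2) • w (J + l))
    (hK : ∀ v, n₀ ≤ 2 ^ v → (2 : Z2) ^ v ∣ w (2 ^ v) 0 + (ss v : Z2) * w (2 ^ v) 1) :
    ∀ J, n₀ ≤ J → w J = 0 := by
  rcases Nat.eq_zero_or_pos E with rfl | hE
  · have hconst : ∀ J, n₀ ≤ J → ∀ l, w J = w (J + l) := by
      intro J hJ l
      have h1 := hw J hJ l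
      rw [add_zero] at h1
      have h2 : ((J + l).choose l : Z2) ≠ 0 := by
        exact_mod_cast (Nat.choose_pos (Nat.le_add_left l J)).ne'
      exact smul_right_injective _ h2 h1
    have hc : ∀ J, n₀ ≤ J → w J = w n₀ := by
      intro J hJ
      obtain ⟨l, rfl⟩ := Nat.exists_eq_add_of_le hJ
      exact (hconst n₀ le_rfl l).symm
    have h1 : w n₀ 0 = 0 ∧ w n₀ 1 = 0 := by
      apply irr n₀
      intro v hv
      have h2 : n₀ ≤ 2 ^ v := hv.trans Nat.lt_two_pow_self.le
      have h3 := hK v h2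
      rw [hc _ h2] at h3
      exact h3
    intro J hJ
    rw [hc J hJ]
    funext a
    fin_cases a
    · exact h1.1
    · exact h1.2
  · intro J hJ
    funext a
    apply eq_zero_of_dvd (c := (J + E).factorial) (Nat.factorial_ne_zero _) (J + E)
    intro s hs
    have h0 : s < 2 ^ s := Nat.lt_two_pow_self
    obtain ⟨l, hl⟩ := Nat.exists_eq_add_of_le (show J + E ≤ 2 ^ s by omega)
    have h1 := congrFun (hw J hJ l) a
    simp only [Pi.smul_apply, smul_eq_mul] at h1
    -- factorials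
    have h2 : (J + l).choose l * l.factorial * J.factorial = (J + l).factorial := by
      have := Nat.choose_mul_factorial_mul_factorial (Nat.le_add_left l J)
      rwa [Nat.add_sub_cancel] at this
    have h3 : (J + E + l).choose l * l.factorial * (J + E).factorial = (J + E + l).factorial := by
      have := Nat.choose_mul_factorial_mul_factorial (Nat.le_add_left l (J + E))
      rwa [Nat.add_sub_cancel] at this
    have h4 : (J + E + l).factorial = (J + E + l) * (J + E + l - 1).factorial := by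
      rw [Nat.mul_factorial_pred (by omega)]
    obtain ⟨q, hq⟩ : (J + l).factorial ∣ (J + E + l - 1).factorial :=
      Nat.factorial_dvd_factorial (by omega)
    have h2' : ((J + l).choose l : Z2) * l.factorial * J.factorial = (J + l).factorial := by
      exact_mod_cast h2
    have h3' : ((J + E + l).choose l : Z2) * l.factorial * (J + E).factorial =
        2 ^ s * ((J + l).factorial * q) := by
      have : (J + E + l).choose l * l.factorial * (J + E).factorial =
          2 ^ s * ((J + l).factorial * q) := by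
        rw [h3, h4, hq, ← hl]
      exact_mod_cast this
    have h5 : ((J + l).factorial : Z2) ≠ 0 := by exact_mod_cast Nat.factorial_ne_zero _
    have h6 : ((J + l).factorial : Z2) * ((J + E).factorial * w J a) =
        (J + l).factorial * (2 ^ s * (q * J.factorial * w (J + l) a)) := by
      calc ((J + l).factorial : Z2) * ((J + E).factorial * w J a)
          = (l.factorial * J.factorial * (J + E).factorial) * (((J + l).choose l : Z2) * w J a) := by
            rw [← h2']; ring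
        _ = (l.factorial * J.factorial * (J + E).factorial) *
            (((J + E + l).choose l : Z2) * w (J + l) a) := by rw [h1]
        _ = (((J + E + l).choose l : Z2) * l.factorial * (J + E).factorial) *
            (J.factorial * w (J + l) a) := by ring
        _ = _ := by rw [h3']; ring
    exact ⟨_, mul_left_cancel₀ h5 h6⟩

/-- Lemma B: generators in degrees `e ≥ 1` contribute only multiples of `2` in the degrees `2^s`. -/
theorem lemB (e n₀ : ℕ) (he : 1 ≤ e) (hn₀ : e ≤ n₀) (w : ℕ → Fin 2 → Z2)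
    (hw : ∀ J, n₀ ≤ J → ∀ l, ((J + l).choose l : Z2) • w J = ((J - e + l).choose l : Z2) • w (J + l)) :
    ∀ s, n₀ + n₀.factorial < 2 ^ s → ∀ a, (2 : Z2) ∣ w (2 ^ s) a := by
  intro s hs a
  apply two_dvd (c := n₀.factorial) (s := s) (Nat.factorial_ne_zero _) (by omega)
  obtain ⟨l, hl⟩ := Nat.exists_eq_add_of_le (show n₀ ≤ 2 ^ s by omega)
  have h1 := congrFun (hw n₀ le_rfl l) a
  simp only [Pi.smul_apply, smul_eq_mul] at h1
  rw [← hl] at h1
  have h2 : (n₀ + l).choose l * l.factorial * n₀.factorial = (n₀ + l).factorial := by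
    have := Nat.choose_mul_factorial_mul_factorial (Nat.le_add_left l n₀)
    rwa [Nat.add_sub_cancel] at this
  have h3 : (n₀ - e + l).choose l * l.factorial * (n₀ - e).factorial = (n₀ - e + l).factorial := by
    have := Nat.choose_mul_factorial_mul_factorial (Nat.le_add_left l (n₀ - e))
    rwa [Nat.add_sub_cancel] at this
  have h4 : (n₀ + l).factorial = (n₀ + l) * (n₀ + l - 1).factorial := by
    rw [Nat.mul_factorial_pred (by omega)]
  obtain ⟨q, hq⟩ : (n₀ - e + l).factorial ∣ (n₀ + l - 1).factorial :=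
    Nat.factorial_dvd_factorial (by omega)
  rw [← hl] at h2 h4
  have h2' : ((2 ^ s : ℕ).choose l : Z2) * l.factorial * n₀.factorial =
      2 ^ s * ((n₀ - e + l).factorial * q) := by
    have : (2 ^ s : ℕ).choose l * l.factorial * n₀.factorial =
        2 ^ s * ((n₀ - e + l).factorial * q) := by
      rw [h2, h4, hl, hq]
    exact_mod_cast this
  have h3' : ((n₀ - e + l).choose l : Z2) * l.factorial * (n₀ - e).factorial =
      (n₀ - e + l).factorial := by exact_mod_cast h3
  have h5 : ((n₀ - e + l).factorial : Z2) ≠ 0 := by exact_mod_cast Nat.factorial_ne_zero _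
  have h6 : ((n₀ - e + l).factorial : Z2) * (n₀.factorial * w (2 ^ s) a) =
      (n₀ - e + l).factorial * (2 ^ s * (q * (n₀ - e).factorial * w n₀ a)) := by
    calc ((n₀ - e + l).factorial : Z2) * (n₀.factorial * w (2 ^ s) a)
        = (l.factorial * (n₀ - e).factorial * n₀.factorial) *
          (((n₀ - e + l).choose l : Z2) * w (2 ^ s) a) := by rw [← h3']; ring
      _ = (l.factorial * (n₀ - e).factorial * n₀.factorial) *
          (((2 ^ s : ℕ).choose l : Z2) * w n₀ a) := by rw [h1]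
      _ = (((2 ^ s : ℕ).choose l : Z2) * l.factorial * n₀.factorial) *
          ((n₀ - e).factorial * w n₀ a) := by ring
      _ = _ := by rw [h2']; ring
  exact ⟨_, mul_left_cancel₀ h5 h6⟩

end R688.DP
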