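import Pool.Agent.R688.DP.Classical
import Pool.Agent.R688.DP.Z2

set_option autoImplicit false

namespace R688.DP

/-- the classical sequence over `ℤ_(2)` -/
noncomputable def pi2 : ℕ → Z2 := fun d => (piNat d : Z2)

lemma Cc2 (n m : ℕ) (hm : m ≤ n) : Cc Z2 pi2 n m = (n.choose m : Z2) := Cc_classical Z2 n m hm

lemma admissible : Admissible Z2 pi2 := by
  intro n m hn hm 𝔪 h𝔪 h1 h2
  have key : ∀ d, 2 ≤ d → pi2 d ∈ 𝔪 → ∃ i, d = 2 ^ i := by
    intro d _ hd
    have hprime : IsPrimePow d := by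
      by_contra hcon
      have : pi2 d = 1 := by
        unfold pi2 piNat
        rw [if_neg hcon, Nat.cast_one]
      rw [this] at hd
      exact h𝔪.ne_top ((Ideal.eq_top_iff_one _).2 hd)
    have h3 : pi2 d = (d.minFac : Z2) := by
      unfold pi2 piNat
      rw [if_pos hprime]
    have h4 : d.minFac = 2 := by
      by_contra hne
      have hodd : Odd d.minFac :=
        (Nat.minFac_prime (by omega)).odd_of_ne_two hne
      have hu : IsUnit ((d.minFac : ℤ) : Z2) := unit_of_odd (by exact_mod_cast hodd)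
      rw [h3] at hd
      exact h𝔪.ne_top (Ideal.eq_top_of_isUnit_mem _ hd (by exact_mod_cast hu))
    exact ⟨_, by rw [← h4]; exact hprime.minFac_pow_factorization_eq.symm⟩
  obtain ⟨i, rfl⟩ := key n hn h1
  obtain ⟨j, rfl⟩ := key m hm h2
  rcases le_total i j with h | h
  · exact Or.inl (pow_dvd_pow _ h)
  · exact Or.inr (pow_dvd_pow _ h)

lemma jacobson : {n : ℕ | 2 ≤ n ∧ pi2 n ∈ Ring.jacobson Z2}.Infinite := by
  have h : Set.range (fun i : ℕ => 2 ^ (i + 1)) ⊆ {n : ℕ | 2 ≤ n ∧ pi2 n ∈ Ring.jacobson Z2} := by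
    rintro _ ⟨i, rfl⟩
    refine ⟨?_, ?_⟩
    · simp only [pow_succ]
      have : 0 < 2 ^ i := by positivity
      omega
    · have h1 : pi2 (2 ^ (i + 1)) = 2 := by
        unfold pi2 piNat
        rw [if_pos (Nat.prime_two.isPrimePow.pow (Nat.succ_ne_zero i)),
          Nat.Prime.pow_minFac Nat.prime_two (Nat.succ_ne_zero i)]
        norm_num
      have h2 : Ring.jacobson Z2 = IsLocalRing.maximalIdeal Z2 := by
        rw [Ring.jacobson_eq_sInf_isMaximal]
        apply le_antisymm
        · exact sInf_le (IsLocalRing.maximalIdeal.isMaximal Z2)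
        · refine le_sInf fun J hJ => ?_
          rw [IsLocalRing.eq_maximalIdeal hJ]
      have h3 : (2 : Z2) ∈ IsLocalRing.maximalIdeal Z2 := by
        have h4 := (Localization.AtPrime.map_eq_maximalIdeal (I := Ideal.span {(2 : ℤ)}))
        rw [← h4]
        have h5 := Ideal.mem_map_of_mem (algebraMap ℤ Z2)
          (Ideal.mem_span_singleton_self (2 : ℤ))
        simpa using h5
      change pi2 (2 ^ (i + 1)) ∈ Ring.jacobson Z2
      rw [h1, h2]
      exact h3
  refine Set.Infinite.mono h (Set.infinite_range_of_injective ?_)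
  intro i j hij
  have := Nat.pow_right_injective (le_refl 2) hij
  omega

/-! ### the target `D/(x^[1])` -/

/-- the ideals `J_j` -/
noncomputable def JJ (j : ℤ) : Ideal Z2 := if j < 0 then ⊤ else Ideal.span {(j.toNat : Z2)}

lemma JJ_nat (n : ℕ) : JJ (n : ℤ) = Ideal.span {(n : Z2)} := by
  unfold JJ
  rw [if_neg (by omega), Int.toNat_natCast]

lemma JJ_neg {j : ℤ} (h : j < 0) : JJ j = ⊤ := by
  unfold JJ
  rw [if_pos h]

/-- binomials map `J_i` into `J_{i+l}` -/
lemma JJ_mul (i j : ℤ) (l : ℕ) (h : i + l = j) (hi : 0 ≤ i) (x : Z2) (hx : x ∈ JJ i) :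
    Cc Z2 pi2 (i.toNat + l) l * x ∈ JJ j := by
  obtain ⟨n, rfl⟩ := Int.eq_ofNat_of_zero_le hi
  have hj : j = ((n + l : ℕ) : ℤ) := by push_cast; omega
  subst hj
  rw [JJ_nat] at hx
  rw [JJ_nat, Int.toNat_natCast, Cc2 _ _ (Nat.le_add_left l n)]
  rw [Ideal.mem_span_singleton] at hx ⊢
  obtain ⟨y, rfl⟩ := hx
  rcases Nat.eq_zero_or_pos n with rfl | hn
  · simp
  · have h1 : (n + l) * (n + l - 1).choose l = (n + l).choose l * n := by
      have := Nat.add_one_mul_choose_eq (n - 1 + l) l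
      have e1 : n - 1 + l + 1 = n + l := by omega
      have e2 : n - 1 + l = n + l - 1 := by omega
      have h2 := Nat.choose_mul_succ_eq (n - 1 + l) l
      rw [e1, e2] at h2
      have e3 : n + l - l = n := by omega
      rw [e3] at h2
      rw [← h2]
      ring
    have h2 : ((n + l : ℕ) : Z2) * ((n + l - 1).choose l : Z2) = ((n + l).choose l : Z2) * n := by
      exact_mod_cast h1
    exact ⟨((n + l - 1).choose l : Z2) * y, by rw [← mul_assoc, ← mul_assoc, h2]⟩

/-- the action on `D/(x^[1])` -/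
noncomputable def nnact (l : ℕ) (i j : ℤ) (h : i + l = j) : (Z2 ⧸ JJ i) →ₗ[Z2] (Z2 ⧸ JJ j) :=
  if hi : 0 ≤ i then
    Submodule.mapQ (JJ i) (JJ j) (Cc Z2 pi2 (i.toNat + l) l • LinearMap.id)
      (fun x hx => by
        rw [Submodule.mem_comap]
        exact JJ_mul i j l h hi x hx)
  else 0

lemma nnact_mk (l : ℕ) (i j : ℤ) (h : i + l = j) (hi : 0 ≤ i) (x : Z2) :
    nnact l i j h (Submodule.Quotient.mk x) =
      Submodule.Quotient.mk (Cc Z2 pi2 (i.toNat + l) l * x) := by
  unfold nnact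
  rw [dif_pos hi, Submodule.mapQ_apply]
  rfl

lemma subsingleton_neg {j : ℤ} (h : j < 0) : Subsingleton (Z2 ⧸ JJ j) := by
  rw [JJ_neg h]
  exact Submodule.Quotient.subsingleton_iff.2 rfl

/-- `N = D/(x^[1])` -/
noncomputable def NN : GMod Z2 pi2 where
  M j := Z2 ⧸ JJ j
  act := nnact
  act_zero i h x := by
    by_cases hi : 0 ≤ i
    · obtain ⟨x, rfl⟩ := Submodule.Quotient.mk_surjective _ x
      rw [nnact_mk _ _ _ _ hi, Cc_zero, one_mul]
    · have := subsingleton_neg (j := i) (by omega)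
      exact Subsingleton.elim _ _
  act_act l l' i j j' h h' h'' x := by
    by_cases hi : 0 ≤ i
    · obtain ⟨x, rfl⟩ := Submodule.Quotient.mk_surjective _ x
      rw [nnact_mk _ _ _ _ hi, nnact_mk _ _ _ _ (by omega), nnact_mk _ _ _ _ hi,
        ← Submodule.Quotient.mk_smul]
      congr 1
      have e1 : j.toNat = i.toNat + l := by omega
      rw [e1, smul_eq_mul, ← mul_assoc, ← mul_assoc, Cc_assoc]
    · unfold nnact
      rw [dif_neg hi, dif_neg hi]
      simp

/-- `M = τ_{≥ 1}(D²)` -/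
noncomputable def MM : GMod Z2 pi2 := trunc 1 (free (fun _ : Fin 2 => 0))

/-- the values of an element of `MM` -/
noncomputable def mval (j : ℤ) : MM.M j →ₗ[Z2] (Fin 2 → Z2) :=
  (Submodule.subtype _) ∘ₗ (Submodule.subtype _)

lemma mval_inj (j : ℤ) : Function.Injective (mval j) := fun x y h =>
  Subtype.ext (Subtype.ext h)

lemma mval_neg {j : ℤ} (h : j < 1) (x : MM.M j) : mval j x = 0 := by
  have h1 : x.1 = 0 := x.2 h
  change (x.1.1 : Fin 2 → Z2) = 0
  rw [h1]
  rfl

lemma mval_act (l : ℕ) (i j : ℤ) (h : i + l = j) (x : MM.M i) :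
    mval j (MM.act l i j h x) = Cc Z2 pi2 (i.toNat + l) l • mval i x := by
  funext a
  change Cc Z2 pi2 ((i - 0).toNat + l) l * mval i x a = _
  rw [sub_zero]
  rfl

/-- the linear map in degree `j` -/
noncomputable def ff (j : ℤ) : MM.M j →ₗ[Z2] NN.M j :=
  (Submodule.mkQ (JJ j)) ∘ₗ
    (LinearMap.proj 0 + (ss (padicValNat 2 j.toNat) : Z2) • LinearMap.proj 1) ∘ₗ mval j

lemma ff_apply (j : ℤ) (x : MM.M j) : ff j x =
    (Submodule.Quotient.mk (mval j x 0 + (ss (padicValNat 2 j.toNat) : Z2) * mval j x 1) :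
      Z2 ⧸ JJ j) := rfl

lemma dvd_iff_pow {n : ℕ} (hn : n ≠ 0) (x : Z2) :
    (n : Z2) ∣ x ↔ (2 : Z2) ^ (padicValNat 2 n) ∣ x := by
  obtain ⟨w, hw⟩ := nat_assoc hn
  rw [hw]
  exact Units.mul_right_dvd

lemma choose_dvd (n l : ℕ) (hn : n ≠ 0) :
    ((n + l : ℕ) : Z2) ∣ ((n + l).choose l : Z2) *
      ((ss (padicValNat 2 (n + l)) : Z2) - ss (padicValNat 2 n)) := by
  have hnl : n + l ≠ 0 := by omega
  rcases le_or_gt (padicValNat 2 (n + l)) (padicValNat 2 n) with h | h
  · apply Dvd.dvd.mul_left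
    rw [dvd_iff_pow hnl, ← dvd_neg, neg_sub]
    have := ss_dvd h
    exact_mod_cast map_dvd (Int.castRingHom Z2) this
  · have h1 : (n : Z2) ∣ (ss (padicValNat 2 (n + l)) : Z2) - ss (padicValNat 2 n) := by
      rw [dvd_iff_pow hn]
      have := ss_dvd h.le
      exact_mod_cast map_dvd (Int.castRingHom Z2) this
    obtain ⟨y, hy⟩ := h1
    have h2 : (n + l) * (n + l - 1).choose l = (n + l).choose l * n := by
      have h2 := Nat.choose_mul_succ_eq (n - 1 + l) l
      have e1 : n - 1 + l + 1 = n + l := by omega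
      have e2 : n - 1 + l = n + l - 1 := by omega
      rw [e1, e2] at h2
      have e3 : n + l - l = n := by omega
      rw [e3] at h2
      rw [← h2]
      ring
    have h3 : ((n + l : ℕ) : Z2) * ((n + l - 1).choose l : Z2) = ((n + l).choose l : Z2) * n := by
      exact_mod_cast h2
    rw [hy, ← mul_assoc, ← h3]
    exact ⟨_, mul_assoc _ _ _⟩

/-- the morphism `f : M → N`, `(a, b) ↦ a + c b` with `c` an irrational `2`-adic integer -/
noncomputable def fhom : GHom MM NN where
  f := ff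
  comm l i j h x := by
    by_cases hi : i < 1
    · have h0 : x = 0 := mval_inj i ((mval_neg hi x).trans (map_zero _).symm)
      rw [h0]
      simp
    · have hi' : 0 ≤ i := by omega
      obtain ⟨n, rfl⟩ := Int.eq_ofNat_of_zero_le hi'
      have hj : j = ((n + l : ℕ) : ℤ) := by push_cast; omega
      subst hj
      rw [ff_apply, ff_apply]
      change (Submodule.Quotient.mk _ : Z2 ⧸ JJ ((n + l : ℕ) : ℤ)) =
        nnact l n ((n + l : ℕ) : ℤ) h (Submodule.Quotient.mk _)
      rw [nnact_mk _ _ _ _ hi', mval_act]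
      rw [Submodule.Quotient.eq, JJ_nat, Ideal.mem_span_singleton]
      simp only [Int.toNat_natCast, Pi.smul_apply, smul_eq_mul, LinearMap.smul_apply,
        LinearMap.id_apply]
      rw [Cc2 _ _ (Nat.le_add_left l n)]
      have h2 := choose_dvd n l (by omega)
      have h3 : ((n + l).choose l : Z2) * mval n x 0 +
          (ss (padicValNat 2 (n + l)) : Z2) * (((n + l).choose l : Z2) * mval n x 1) -
          ((n + l).choose l : Z2) * (mval n x 0 + (ss (padicValNat 2 n) : Z2) * mval n x 1) =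
          ((n + l).choose l : Z2) * ((ss (padicValNat 2 (n + l)) : Z2) - ss (padicValNat 2 n)) *
            mval n x 1 := by ring
      rw [h3]
      exact h2.mul_right _

end R688.DP
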