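import Mathlib

/-!
# Graded modules over generalized divided power algebras

A graded module over `D(π; k)` is a family of `k`-modules `M j` (`j : ℤ`) with the operators
`x^[l] : M i → M (i + l)`, subject to `x^[0] = 1` and
`x^[l'] x^[l] = C(l + l', l') x^[l + l']`.
-/

set_option autoImplicit false

universe u

namespace R688.DP

variable (k : Type u) [CommRing k] (π : ℕ → k)

/-- `C(n, m) = ∏_{d ≥ 2} π_d ^ (⌊n/d⌋ - ⌊m/d⌋ - ⌊(n-m)/d⌋)`; the exponents vanish for `d > n`. -/
def Cc (n m : ℕ) : k := ∏ d ∈ Finset.Icc 2 n, π d ^ (n / d - m / d - (n - m) / d)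

/-- admissible sequences `π_2, π_3, …` -/
def Admissible : Prop :=
  ∀ n m : ℕ, 2 ≤ n → 2 ≤ m → ∀ 𝔪 : Ideal k, 𝔪.IsMaximal → π n ∈ 𝔪 → π m ∈ 𝔪 → n ∣ m ∨ m ∣ n

/-- operators `x^[l] : M_i → M_{i+l}` on a graded `k`-module `M` -/
abbrev Act (M : ℤ → Type u) [∀ j, AddCommGroup (M j)] [∀ j, Module k (M j)] : Type u :=
  (l : ℕ) → (i j : ℤ) → i + l = j → (M i →ₗ[k] M j)

/-- the relation `x^[0] = 1` -/
def ActZero (M : ℤ → Type u) [∀ j, AddCommGroup (M j)] [∀ j, Module k (M j)] (act : Act k M) :
    Prop :=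
  ∀ (i : ℤ) (h : i + (0 : ℕ) = i) (x : M i), act 0 i i h x = x

/-- the relations `x^[l'] x^[l] = C(l + l', l') x^[l + l']` -/
def ActMul (M : ℤ → Type u) [∀ j, AddCommGroup (M j)] [∀ j, Module k (M j)] (act : Act k M) :
    Prop :=
  ∀ (l l' : ℕ) (i j j' : ℤ) (h : i + l = j) (h' : j + l' = j')
    (h'' : i + (l + l' : ℕ) = j') (x : M i),
    act l' j j' h' (act l i j h x) = Cc k π (l + l') l' • act (l + l') i j' h'' x

/-- A `ℤ`-graded module over the generalized divided power algebra `D(π; k)`:
`act l i j` is multiplication by `x^[l]` from degree `i` to degree `j = i + l`. -/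
structure GMod where
  M : ℤ → Type u
  [grp : ∀ j, AddCommGroup (M j)]
  [mod : ∀ j, Module k (M j)]
  act : Act k M
  act_zero : ActZero k M act
  act_act : ActMul k π M act

attribute [instance] GMod.grp GMod.mod

variable {k π}

/-- compatibility of degree preserving maps with the operators -/
def ActComm {M N : GMod k π} (f : ∀ j, M.M j →ₗ[k] N.M j) : Prop :=
  ∀ (l : ℕ) (i j : ℤ) (h : i + l = j) (x : M.M i), f j (M.act l i j h x) =
    N.act l i j h (f i x)

/-- degree preserving morphisms of graded modules -/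
structure GHom (M N : GMod k π) where
  f : ∀ j, M.M j →ₗ[k] N.M j
  comm : ActComm f

lemma ker_aux {M N : GMod k π} (φ : GHom M N) (l : ℕ) (i j : ℤ) (h : i + l = j) :
    ∀ x ∈ LinearMap.ker (φ.f i), M.act l i j h x ∈ LinearMap.ker (φ.f j) := fun x hx => by
  rw [LinearMap.mem_ker] at hx ⊢
  rw [φ.comm, hx, map_zero]

/-- the operators on the kernel -/
def kerAct {M N : GMod k π} (φ : GHom M N) : Act k (fun j => LinearMap.ker (φ.f j)) :=
  fun l i j h => LinearMap.restrict (M.act l i j h) (ker_aux φ l i j h)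

lemma kerAct_zero {M N : GMod k π} (φ : GHom M N) : ActZero k _ (kerAct φ) :=
  fun i h x => Subtype.ext (M.act_zero i h x.1)

lemma kerAct_mul {M N : GMod k π} (φ : GHom M N) : ActMul k π _ (kerAct φ) :=
  fun l l' i j j' h h' h'' x => Subtype.ext (M.act_act l l' i j j' h h' h'' x.1)

/-- the kernel of a morphism -/
def GHom.ker {M N : GMod k π} (φ : GHom M N) : GMod k π where
  M j := LinearMap.ker (φ.f j)
  act := kerAct φ
  act_zero := kerAct_zero φ
  act_act := kerAct_mul φ

/-- the elements of degree `j` of the truncation `τ_{≥ n}`: all of `M_j` if `j ≥ n`, and `0` if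
`j < n` -/
def truncSub (n : ℤ) (M : GMod k π) (j : ℤ) : Submodule k (M.M j) where
  carrier := {x | j < n → x = 0}
  add_mem' := fun {a b} ha hb h => by rw [ha h, hb h, add_zero]
  zero_mem' := fun _ => rfl
  smul_mem' := fun c x hx h => by rw [hx h, smul_zero]

lemma trunc_aux (n : ℤ) (M : GMod k π) (l : ℕ) (i j : ℤ) (h : i + l = j) :
    ∀ x ∈ truncSub n M i, M.act l i j h x ∈ truncSub n M j := fun x hx hj => by
  have : x = 0 := hx (by omega)
  rw [this, map_zero]

/-- the operators on the truncation -/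
def truncAct (n : ℤ) (M : GMod k π) : Act k (fun j => truncSub n M j) :=
  fun l i j h => LinearMap.restrict (M.act l i j h) (trunc_aux n M l i j h)

lemma truncAct_zero (n : ℤ) (M : GMod k π) : ActZero k _ (truncAct n M) :=
  fun i h x => Subtype.ext (M.act_zero i h x.1)

lemma truncAct_mul (n : ℤ) (M : GMod k π) : ActMul k π _ (truncAct n M) :=
  fun l l' i j j' h h' h'' x => Subtype.ext (M.act_act l l' i j j' h h' h'' x.1)

/-- the truncation `τ_{≥ n}` -/
def trunc (n : ℤ) (M : GMod k π) : GMod k π where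
  M j := truncSub n M j
  act := truncAct n M
  act_zero := truncAct_zero n M
  act_act := truncAct_mul n M

section identity

variable (k π)

lemma Cc_eq (n m B : ℕ) (_hm : m ≤ n) (hB : n ≤ B) :
    Cc k π n m = ∏ d ∈ Finset.Icc 2 B, π d ^ (n / d - m / d - (n - m) / d) := by
  unfold Cc
  apply Finset.prod_subset (Finset.Icc_subset_Icc le_rfl hB)
  intro d hd hd'
  have h1 : n < d := by
    simp only [Finset.mem_Icc, not_and, not_le] at hd hd'
    exact hd' hd.1
  rw [Nat.div_eq_of_lt h1, Nat.zero_sub, Nat.zero_sub, pow_zero]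

lemma Cc_assoc (n l l' : ℕ) :
    Cc k π (n + l + l') l' * Cc k π (n + l) l =
      Cc k π (l + l') l' * Cc k π (n + (l + l')) (l + l') := by
  rw [Cc_eq k π (n + l + l') l' (n + l + l') (by omega) le_rfl,
    Cc_eq k π (n + l) l (n + l + l') (by omega) (by omega),
    Cc_eq k π (l + l') l' (n + l + l') (by omega) (by omega),
    Cc_eq k π (n + (l + l')) (l + l') (n + l + l') (by omega) (by omega),
    ← Finset.prod_mul_distrib, ← Finset.prod_mul_distrib]
  apply Finset.prod_congr rfl
  intro d _
  rw [← pow_add, ← pow_add]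
  congr 1
  have e1 : n + l + l' - l' = n + l := by omega
  have e2 : n + l - l = n := by omega
  have e3 : l + l' - l' = l := by omega
  have e4 : n + (l + l') - (l + l') = n := by omega
  have e5 : n + (l + l') = n + l + l' := by omega
  rw [e1, e2, e3, e4, e5]
  have h1 : (n + l) / d + l' / d ≤ (n + l + l') / d := Nat.div_add_div_le_add_div
  have h2 : n / d + l / d ≤ (n + l) / d := Nat.div_add_div_le_add_div
  have h3 : l / d + l' / d ≤ (l + l') / d := Nat.div_add_div_le_add_div
  have h4 : n / d + (l + l') / d ≤ (n + (l + l')) / d := Nat.div_add_div_le_add_div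
  rw [e5] at h4
  omega

lemma Cc_zero (n : ℕ) : Cc k π n 0 = 1 := by
  unfold Cc
  apply Finset.prod_eq_one
  intro d _
  simp

end identity

variable (k) in
/-- the elements `∑ c_a x^[j - e_a]` of degree `j` of the free module with basis in degrees `e_a`;
here `c_a = 0` if `j < e_a` -/
def freeSub {m : ℕ} (e : Fin m → ℤ) (j : ℤ) : Submodule k (Fin m → k) where
  carrier := {c | ∀ a, j < e a → c a = 0}
  add_mem' := fun {x y} hx hy a h => by rw [Pi.add_apply, hx a h, hy a h, add_zero]
  zero_mem' := fun _ _ => rfl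
  smul_mem' := fun c x hx a h => by rw [Pi.smul_apply, hx a h, smul_zero]

variable (k π) in
/-- multiplication by `x^[l]` on the free module: `x^[l] x^[i - e_a] = C(i - e_a + l, l) x^[j - e_a]`
-/
def freeMul {m : ℕ} (e : Fin m → ℤ) (l : ℕ) (i : ℤ) : (Fin m → k) →ₗ[k] (Fin m → k) :=
  LinearMap.pi fun a => Cc k π ((i - e a).toNat + l) l • LinearMap.proj a

lemma freeMul_mem {m : ℕ} (e : Fin m → ℤ) (l : ℕ) (i j : ℤ) (h : i + l = j) :
    ∀ x ∈ freeSub k e i, freeMul k π e l i x ∈ freeSub k e j := fun x hx a ha => by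
  have : x a = 0 := hx a (by omega)
  simp [freeMul, this]

variable (k π) in
/-- the operators on the free module -/
def freeAct {m : ℕ} (e : Fin m → ℤ) : Act k (fun j => freeSub k e j) :=
  fun l i j h => LinearMap.restrict (freeMul k π e l i) (freeMul_mem e l i j h)

lemma freeAct_zero {m : ℕ} (e : Fin m → ℤ) : ActZero k _ (freeAct k π e) := fun i h x => by
  apply Subtype.ext
  funext a
  simp [Cc_zero, freeMul, freeAct]

lemma freeAct_mul {m : ℕ} (e : Fin m → ℤ) : ActMul k π _ (freeAct k π e) :=
  fun l l' i j j' h h' h'' x => by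
    apply Subtype.ext
    funext a
    change Cc k π ((j - e a).toNat + l') l' * (Cc k π ((i - e a).toNat + l) l * x.1 a) =
      Cc k π (l + l') l' * (Cc k π ((i - e a).toNat + (l + l')) (l + l') * x.1 a)
    by_cases hi : i < e a
    · rw [x.2 a hi]
      simp
    · have e1 : (j - e a).toNat = (i - e a).toNat + l := by omega
      rw [e1, ← mul_assoc, Cc_assoc, mul_assoc]

/-- the finite free module with basis in degrees `e a` -/
def free {m : ℕ} (e : Fin m → ℤ) : GMod k π where
  M j := freeSub k e j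
  act := freeAct k π e
  act_zero := freeAct_zero e
  act_act := freeAct_mul e

/-- Finitely presented graded modules: there is an exact sequence `G → F → N → 0` with `F` and
`G` finite free graded modules. -/
def IsFP (N : GMod k π) : Prop :=
  ∃ (m m' : ℕ) (e : Fin m → ℤ) (e' : Fin m' → ℤ) (φ : GHom (free (k := k) (π := π) e') (free e))
    (ψ : GHom (free e) N), ∀ j, Function.Surjective (ψ.f j) ∧
      LinearMap.range (φ.f j) = LinearMap.ker (ψ.f j)

/-- Nearly finitely presented graded modules. -/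
structure IsNfp (M : GMod k π) : Prop where
  finite : ∀ j, Module.Finite k (M.M j)
  bounded : ∃ j₀ : ℤ, ∀ j < j₀, Subsingleton (M.M j)
  nearly : ∃ (N : GMod k π) (n : ℤ) (θ : GHom (trunc n M) (trunc n N)), IsFP N ∧
    ∀ j, Function.Bijective (θ.f j)

end R688.DP
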