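import Pool.Agent.R688.DP.Counter

set_option autoImplicit false

namespace R688.DP

/-! ### `M` and `N` are nearly finitely presented -/

lemma isFP_free {m : ℕ} (e : Fin m → ℤ) : IsFP (free (k := Z2) (π := pi2) e) := by
  refine ⟨m, 0, e, Fin.elim0, ⟨fun _ => 0, fun _ _ _ _ _ => by simp⟩,
    ⟨fun _ => LinearMap.id, fun _ _ _ _ _ => rfl⟩, fun j => ⟨Function.surjective_id, ?_⟩⟩
  rw [LinearMap.range_zero, LinearMap.ker_id]

theorem nfp_MM : IsNfp MM where
  finite j := Module.Finite.of_injective (mval j) (mval_inj j)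
  bounded := ⟨1, fun j hj => ⟨fun x y => mval_inj j ((mval_neg hj x).trans (mval_neg hj y).symm)⟩⟩
  nearly := by
    refine ⟨free (fun _ : Fin 2 => 0), 1, ⟨fun j => Submodule.subtype _, fun _ _ _ _ _ => rfl⟩,
      isFP_free _, fun j => ⟨Subtype.val_injective, fun y => ?_⟩⟩
    refine ⟨⟨y, fun hj => Subtype.ext (y.2 hj)⟩, rfl⟩

lemma mulx (n l : ℕ) (hn : n ≠ 0) : ((n + l).choose l : Z2) * n =
    ((n + l : ℕ) : Z2) * ((n - 1 + l).choose l : Z2) := by
  have h2 := Nat.choose_mul_succ_eq (n - 1 + l) l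
  have e1 : n - 1 + l + 1 = n + l := by omega
  rw [e1] at h2
  have e3 : n + l - l = n := by omega
  rw [e3] at h2
  have h3 : (n + l).choose l * n = (n + l) * (n - 1 + l).choose l := by
    rw [← h2]; ring
  exact_mod_cast h3

/-- multiplication by `x^[1]`, from `D(-1)` to `D` -/
noncomputable def phi : GHom (free (k := Z2) (π := pi2) (fun _ : Fin 1 => 1))
    (free (fun _ : Fin 1 => 0)) where
  f j := LinearMap.restrict ((j.toNat : Z2) • LinearMap.id) (fun x hx a ha => by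
    have : x a = 0 := hx a (lt_trans ha zero_lt_one)
    simp [this])
  comm l i j h x := by
    apply Subtype.ext
    funext a
    change (j.toNat : Z2) * (Cc Z2 pi2 ((i - 1).toNat + l) l * x.1 a) =
      Cc Z2 pi2 ((i - 0).toNat + l) l * ((i.toNat : Z2) * x.1 a)
    by_cases hi : i < 1
    · have : x.1 a = 0 := x.2 a hi
      rw [this]
      simp
    · obtain ⟨n, rfl⟩ := Int.eq_ofNat_of_zero_le (show 0 ≤ i by omega)
      have hj : j = ((n + l : ℕ) : ℤ) := by push_cast; omega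
      subst hj
      have e1 : ((n : ℤ) - 1).toNat = n - 1 := by omega
      have e2 : ((n : ℤ) - 0).toNat = n := by omega
      rw [Int.toNat_natCast, Int.toNat_natCast, e1, e2, Cc2 _ _ (Nat.le_add_left _ _),
        Cc2 _ _ (Nat.le_add_left _ _), ← mul_assoc, ← mul_assoc, mulx n l (by omega)]

/-- the projection `D → D/(x^[1])` -/
noncomputable def psi : GHom (free (k := Z2) (π := pi2) (fun _ : Fin 1 => 0)) NN where
  f j := (Submodule.mkQ (JJ j)) ∘ₗ (LinearMap.proj 0) ∘ₗ (Submodule.subtype _)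
  comm l i j h x := by
    change (Submodule.Quotient.mk (Cc Z2 pi2 ((i - 0).toNat + l) l * x.1 0) : Z2 ⧸ JJ j) =
      nnact l i j h (Submodule.Quotient.mk (x.1 0))
    by_cases hi : 0 ≤ i
    · rw [nnact_mk _ _ _ _ hi, sub_zero]
    · have : x.1 0 = 0 := x.2 0 (by show i < (0 : ℤ); omega)
      rw [this, mul_zero, Submodule.Quotient.mk_zero, Submodule.Quotient.mk_zero, map_zero]

theorem isFP_NN : IsFP NN := by
  refine ⟨1, 1, fun _ => 0, fun _ => 1, phi, psi, fun j => ⟨?_, ?_⟩⟩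
  · intro y
    obtain ⟨x, hx⟩ := Submodule.Quotient.mk_surjective (JJ j) y
    by_cases hj : 0 ≤ j
    · refine ⟨⟨fun _ => x, fun a ha => by have ha' : j < (0 : ℤ) := ha; omega⟩, ?_⟩
      exact hx
    · have := subsingleton_neg (j := j) (by omega)
      exact ⟨0, Subsingleton.elim (α := Z2 ⧸ JJ j) _ _⟩
  · ext x
    rw [LinearMap.mem_ker]
    have h1 : psi.f j x = (Submodule.Quotient.mk (x.1 0) : Z2 ⧸ JJ j) := rfl
    rw [h1]
    by_cases hj : 0 ≤ j
    · obtain ⟨n, rfl⟩ := Int.eq_ofNat_of_zero_le hj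
      have h2 : ((Submodule.Quotient.mk (x.1 0) : Z2 ⧸ JJ n) = 0) ↔ (n : Z2) ∣ x.1 0 := by
        rw [Submodule.Quotient.mk_eq_zero, JJ_nat, Ideal.mem_span_singleton]
      refine Iff.trans ?_ h2.symm
      constructor
      · rintro ⟨y, rfl⟩
        change (n : Z2) ∣ (((n : ℤ).toNat : ℕ) : Z2) * y.1 0
        rw [Int.toNat_natCast]
        exact dvd_mul_right _ _
      · rintro ⟨y, hy⟩
        by_cases hn : n = 0
        · subst hn
          refine ⟨0, ?_⟩
          rw [map_zero]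
          apply Subtype.ext
          funext a
          have ha : a = 0 := Subsingleton.elim _ _
          subst ha
          rw [hy]
          simp only [Nat.cast_zero, zero_mul]
          rfl
        · refine ⟨⟨fun _ => y, fun a ha => by have ha' : (n : ℤ) < (1 : ℤ) := ha; omega⟩, ?_⟩
          apply Subtype.ext
          funext a
          have ha : a = 0 := Subsingleton.elim _ _
          subst ha
          rw [hy]
          change (((n : ℤ).toNat : ℕ) : Z2) * y = n * y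
          rw [Int.toNat_natCast]
    · have h0 : x = 0 := by
        apply Subtype.ext
        funext a
        exact x.2 a (by show j < (0 : ℤ); omega)
      have := subsingleton_neg (j := j) (by omega)
      constructor
      · intro _
        exact Subsingleton.elim (α := Z2 ⧸ JJ j) _ _
      · intro _
        exact ⟨0, by rw [map_zero, h0]⟩

theorem nfp_NN : IsNfp NN where
  finite j := inferInstanceAs (Module.Finite Z2 (Z2 ⧸ JJ j))
  bounded := ⟨0, fun j hj => subsingleton_neg hj⟩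
  nearly := ⟨NN, 0, ⟨fun _ => LinearMap.id, fun _ _ _ _ _ => rfl⟩, isFP_NN,
    fun _ => Function.bijective_id⟩

/-! ### The kernel is not nearly finitely presented -/

/-- values of the elements of the kernel -/
noncomputable def kval (j : ℤ) : fhom.ker.M j →ₗ[Z2] (Fin 2 → Z2) :=
  (mval j) ∘ₗ (Submodule.subtype _)

lemma kval_inj (j : ℤ) : Function.Injective (kval j) := fun _ _ h =>
  Subtype.ext (mval_inj j h)

lemma kval_act (l : ℕ) (i j : ℤ) (h : i + l = j) (x : fhom.ker.M i) :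
    kval j (fhom.ker.act l i j h x) = Cc Z2 pi2 (i.toNat + l) l • kval i x :=
  mval_act l i j h x.1

lemma kval_mem (v : ℕ) (x : fhom.ker.M ((2 ^ v : ℕ) : ℤ)) :
    (2 : Z2) ^ v ∣ kval _ x 0 + (ss v : Z2) * kval _ x 1 := by
  have h1 : ff _ x.1 = 0 := x.2
  rw [ff_apply] at h1
  have h2 := (Submodule.Quotient.mk_eq_zero (JJ ((2 ^ v : ℕ) : ℤ))).1 h1
  rw [JJ_nat, Ideal.mem_span_singleton, Int.toNat_natCast, padicValNat.prime_pow] at h2
  push_cast at h2
  exact h2

lemma exists_elt (s : ℕ) : ∃ x : fhom.ker.M ((2 ^ s : ℕ) : ℤ),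
    kval _ x 0 = -(ss s : Z2) ∧ kval _ x 1 = 1 := by
  have hpos : (1 : ℤ) ≤ ((2 ^ s : ℕ) : ℤ) := by
    have : 0 < 2 ^ s := by positivity
    omega
  let y : (free (k := Z2) (π := pi2) (fun _ : Fin 2 => 0)).M ((2 ^ s : ℕ) : ℤ) :=
    ⟨![-(ss s : Z2), 1], fun a ha => by
      have ha' : ((2 ^ s : ℕ) : ℤ) < (0 : ℤ) := ha
      omega⟩
  let z : MM.M ((2 ^ s : ℕ) : ℤ) := ⟨y, fun h => by omega⟩
  refine ⟨⟨z, ?_⟩, rfl, rfl⟩
  rw [LinearMap.mem_ker]
  change ff _ z = 0
  rw [ff_apply]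
  refine (Submodule.Quotient.mk_eq_zero (JJ ((2 ^ s : ℕ) : ℤ))).2 ?_
  rw [Int.toNat_natCast, padicValNat.prime_pow]
  have : mval _ z 0 + (ss s : Z2) * mval _ z 1 = 0 := by
    change -(ss s : Z2) + (ss s : Z2) * 1 = 0
    ring
  rw [this]
  exact Submodule.zero_mem _

theorem not_nfp : ¬ IsNfp fhom.ker := by
  intro hK
  obtain ⟨N, n, θ, ⟨m, m', e, e', φ, ψ, hψ⟩, hθ⟩ := hK.nearly
  -- a bound
  obtain ⟨n₀, hn₀1, hn₀n, hn₀e⟩ : ∃ n₀ : ℕ, 1 ≤ n₀ ∧ n ≤ n₀ ∧ ∀ a, e a ≤ n₀ := by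
    refine ⟨1 + n.toNat + ∑ a, (e a).toNat, by omega, by omega, fun a => ?_⟩
    have h1 : (e a).toNat ≤ ∑ a, (e a).toNat :=
      Finset.single_le_sum (f := fun a => (e a).toNat) (fun _ _ => Nat.zero_le _)
        (Finset.mem_univ a)
    omega
  -- basis elements
  let bb : Fin m → ∀ J : ℕ, n₀ ≤ J → (free (k := Z2) (π := pi2) e).M J := fun a J hJ =>
    ⟨Pi.single a 1, fun a' ha' => by have := hn₀e a'; omega⟩
  have hbb_act : ∀ a J (hJ : n₀ ≤ J) l, (free (k := Z2) (π := pi2) e).act l J ((J + l : ℕ) : ℤ)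
      (by push_cast; rfl) (bb a J hJ) =
      Cc Z2 pi2 (((J : ℤ) - e a).toNat + l) l • bb a (J + l) (by omega) := by
    intro a J hJ l
    apply Subtype.ext
    funext a'
    change Cc Z2 pi2 (((J : ℤ) - e a').toNat + l) l * (Pi.single a 1 : Fin m → Z2) a' =
      Cc Z2 pi2 (((J : ℤ) - e a).toNat + l) l * (Pi.single a 1 : Fin m → Z2) a'
    by_cases h : a' = a
    · subst h; rfl
    · rw [Pi.single_eq_of_ne h, mul_zero, mul_zero]
  have hex : ∀ a J (hJ : n₀ ≤ J), ∃ x : (trunc n fhom.ker).M J,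
      (θ.f J x).1 = ψ.f J (bb a J hJ) := by
    intro a J hJ
    obtain ⟨x, hx⟩ := (hθ J).2 ⟨ψ.f J (bb a J hJ), fun h => by omega⟩
    exact ⟨x, congrArg Subtype.val hx⟩
  choose X hX using hex
  let W : Fin m → ℕ → Fin 2 → Z2 := fun a J =>
    if hJ : n₀ ≤ J then kval J (X a J hJ).1 else 0
  have hW : ∀ a J (hJ : n₀ ≤ J), W a J = kval J (X a J hJ).1 := fun a J hJ => dif_pos hJ
  have hrel : ∀ a J, n₀ ≤ J → ∀ l, ((J + l).choose l : Z2) • W a J =
      Cc Z2 pi2 (((J : ℤ) - e a).toNat + l) l • W a (J + l) := by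
    intro a J hJ l
    have h1 : (trunc n fhom.ker).act l J ((J + l : ℕ) : ℤ) (by push_cast; rfl) (X a J hJ) =
        Cc Z2 pi2 (((J : ℤ) - e a).toNat + l) l • X a (J + l) (by omega) := by
      apply (hθ _).1
      rw [θ.comm, map_smul]
      apply Subtype.ext
      have h2 : ((trunc n N).act l J ((J + l : ℕ) : ℤ) (by push_cast; rfl)
          (θ.f J (X a J hJ))).1 = N.act l J ((J + l : ℕ) : ℤ) (by push_cast; rfl)
          (θ.f J (X a J hJ)).1 := rfl
      have h3 : (Cc Z2 pi2 (((J : ℤ) - e a).toNat + l) l •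
          θ.f ((J + l : ℕ) : ℤ) (X a (J + l) (by omega))).1 =
          Cc Z2 pi2 (((J : ℤ) - e a).toNat + l) l •
            (θ.f ((J + l : ℕ) : ℤ) (X a (J + l) (by omega))).1 := rfl
      rw [h2, h3, hX a J hJ, hX a (J + l) (by omega), ← ψ.comm, hbb_act a J hJ l, map_smul]
    have h4 := congrArg (fun z => kval ((J + l : ℕ) : ℤ) z.1) h1
    have h5 : kval ((J + l : ℕ) : ℤ) ((trunc n fhom.ker).act l J ((J + l : ℕ) : ℤ)
        (by push_cast; rfl) (X a J hJ)).1 = Cc Z2 pi2 ((J : ℤ).toNat + l) l •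
          kval J (X a J hJ).1 := kval_act _ _ _ _ _
    have h6 : kval ((J + l : ℕ) : ℤ) (Cc Z2 pi2 (((J : ℤ) - e a).toNat + l) l •
        X a (J + l) (by omega)).1 = Cc Z2 pi2 (((J : ℤ) - e a).toNat + l) l •
        kval ((J + l : ℕ) : ℤ) (X a (J + l) (by omega)).1 := map_smul _ _ _
    beta_reduce at h4
    rw [h5, h6, Int.toNat_natCast, Cc2 _ _ (Nat.le_add_left _ _)] at h4
    rw [hW a J hJ, hW a (J + l) (by omega)]
    exact h4
  -- every generator contributes an even vector in degree `2^s`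
  have heven : ∀ a s, n₀ + n₀.factorial < 2 ^ s → ∀ i, (2 : Z2) ∣ W a (2 ^ s) i := by
    intro a s hs i
    rcases le_or_gt (e a) 0 with h | h
    · have h1 := lemA (-(e a)).toNat n₀ hn₀1 (W a) (fun J hJ l => by
        have e1 : ((J : ℤ) - e a).toNat = J + (-(e a)).toNat := by omega
        rw [hrel a J hJ l, e1, Cc2 _ _ (Nat.le_add_left _ _)]) (fun v hv => by
        rw [hW a _ hv]
        exact kval_mem v _) (2 ^ s) (by omega)
      rw [h1]
      exact dvd_zero _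
    · obtain ⟨E, hE⟩ := Int.eq_ofNat_of_zero_le h.le
      have h2 := hn₀e a
      exact lemB E n₀ (by omega) (by omega) (W a) (fun J hJ l => by
        have e1 : ((J : ℤ) - e a).toNat = J - E := by omega
        rw [hrel a J hJ l, e1, Cc2 _ _ (Nat.le_add_left _ _)]) s hs i
  -- the contradiction
  obtain ⟨s, hs⟩ : ∃ s, n₀ + n₀.factorial < 2 ^ s := ⟨_, Nat.lt_two_pow_self⟩
  have hs0 : n₀ ≤ 2 ^ s := by omega
  obtain ⟨x, hx0, hx1⟩ := exists_elt s
  let x' : (trunc n fhom.ker).M ((2 ^ s : ℕ) : ℤ) := ⟨x, fun h => by omega⟩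
  obtain ⟨c, hc⟩ := (hψ ((2 ^ s : ℕ) : ℤ)).1 (θ.f _ x').1
  have hcsum : c = ∑ a, c.1 a • bb a (2 ^ s) hs0 := by
    apply Subtype.ext
    have h1 : ((∑ a, c.1 a • bb a (2 ^ s) hs0 :
        (free (k := Z2) (π := pi2) e).M ((2 ^ s : ℕ) : ℤ))).1 =
        ∑ a, c.1 a • (Pi.single a 1 : Fin m → Z2) := by
      have := map_sum (Submodule.subtype (freeSub Z2 e ((2 ^ s : ℕ) : ℤ)))
        (fun a => c.1 a • bb a (2 ^ s) hs0) Finset.univ
      exact this
    rw [h1]
    funext a'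
    simp [Finset.sum_apply, Pi.single_apply]
  have hsum : x' = ∑ a, c.1 a • X a (2 ^ s) hs0 := by
    apply (hθ _).1
    apply Subtype.ext
    rw [← hc]
    conv_lhs => rw [hcsum]
    rw [map_sum, map_sum]
    have h1 : ((∑ a, θ.f ((2 ^ s : ℕ) : ℤ) (c.1 a • X a (2 ^ s) hs0) :
        (trunc n N).M ((2 ^ s : ℕ) : ℤ))).1 =
        ∑ a, (θ.f ((2 ^ s : ℕ) : ℤ) (c.1 a • X a (2 ^ s) hs0)).1 := by
      have := map_sum (Submodule.subtype (truncSub n N ((2 ^ s : ℕ) : ℤ)))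
          (fun a => θ.f ((2 ^ s : ℕ) : ℤ) (c.1 a • X a (2 ^ s) hs0)) Finset.univ
      exact this
    rw [h1]
    apply Finset.sum_congr rfl
    intro a _
    rw [map_smul, map_smul]
    have h2 : (c.1 a • θ.f ((2 ^ s : ℕ) : ℤ) (X a (2 ^ s) hs0)).1 =
      c.1 a • (θ.f ((2 ^ s : ℕ) : ℤ) (X a (2 ^ s) hs0)).1 := rfl
    rw [h2, hX]
  have h1 : kval ((2 ^ s : ℕ) : ℤ) x = ∑ a, c.1 a • W a (2 ^ s) := by
    let L : (trunc n fhom.ker).M ((2 ^ s : ℕ) : ℤ) →ₗ[Z2] (Fin 2 → Z2) :=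
      (kval ((2 ^ s : ℕ) : ℤ)) ∘ₗ (Submodule.subtype _)
    have h2 : L x' = kval ((2 ^ s : ℕ) : ℤ) x := rfl
    rw [← h2, hsum, map_sum]
    apply Finset.sum_congr rfl
    intro a _
    rw [map_smul, hW a _ hs0]
    rfl
  have h2 : (2 : Z2) ∣ 1 := by
    rw [← hx1, h1, Finset.sum_apply]
    apply Finset.dvd_sum
    intro a _
    rw [Pi.smul_apply, smul_eq_mul]
    exact (heven a s hs 1).mul_left _
  have h3 : (2 : Z2) ^ 1 ∣ ((1 : ℤ) : Z2) := by
    rw [pow_one, Int.cast_one]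
    exact h2
  have h4 := dvd_int h3
  norm_num at h4

end R688.DP
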